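import Pool.Agent.H986R2.SZ.LagZ
import Pool.Agent.H986R2.DBN.All

set_option autoImplicit false

/-!
# Approximation of the derivatives of the heat flow by polynomials with all roots in a strip
-/

namespace Pool.Agent.H986R2.SZ

open Complex Filter Metric Topology Polynomial Set Pool.Agent.H24R2.JP Pool.Agent.H986R2.DBN

/-- Gauss-Lucas for the strip. -/
theorem gl_strip (P : ℂ[X]) (h : ∀ z : ℂ, P.eval z = 0 → |z.re| ≤ 1 / 2) (n : ℕ)
    (hn : derivative^[n] P ≠ 0) : ∀ z : ℂ, (derivative^[n] P).eval z = 0 → |z.re| ≤ 1 / 2 := by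
  induction n with
  | zero => exact h
  | succ n ih =>
    rw [Function.iterate_succ_apply'] at hn
    set Q := derivative^[n] P with hQ
    have hQ0 : Q ≠ 0 := by
      intro h0
      rw [h0] at hn
      simp at hn
    have ih' := ih hQ0
    intro z hz
    rw [Function.iterate_succ_apply', ← hQ] at hz
    have hd : 0 < Q.degree := by
      by_contra hcon
      push Not at hcon
      apply hn
      rw [eq_C_of_degree_le_zero hcon, derivative_C]
    have hmem : z ∈ Q.derivative.rootSet ℂ := by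
      rw [mem_rootSet]
      exact ⟨hn, by rw [coe_aeval_eq_eval]; exact hz⟩
    have h1 := rootSet_derivative_subset_convexHull_rootSet hd hmem
    have hconv : Convex ℝ {z : ℂ | |z.re| ≤ 1 / 2} := by
      intro x hx y hy a b ha hb hab
      simp only [Set.mem_setOf_eq] at hx hy ⊢
      have e : (a • x + b • y).re = a * x.re + b * y.re := by simp
      rw [e, abs_le]
      rw [abs_le] at hx hy
      constructor <;> nlinarith
    refine convexHull_min ?_ hconv h1
    intro w hw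
    rw [mem_rootSet] at hw
    refine ih' w ?_
    have := hw.2
    rwa [coe_aeval_eq_eval] at this

theorem sq_par {z : ℂ} (h : z ^ 2 ∈ Par) : |z.re| ≤ 1 / 2 := by
  have hre : (z ^ 2).re = z.re ^ 2 - z.im ^ 2 := by rw [pow_two, Complex.mul_re]; ring
  have him : (z ^ 2).im = 2 * z.re * z.im := by rw [pow_two, Complex.mul_im]; ring
  have hp1 : (z ^ 2).re + (z ^ 2).im ^ 2 ≤ 1 / 4 := h
  rw [hre, him] at hp1
  have hs : z.re ^ 2 ≤ (1 / 2) ^ 2 := by
    have h : (z.re ^ 2 - 1 / 4) * (4 * z.im ^ 2 + 1) ≤ 0 := by nlinarith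
    by_contra hc
    push Not at hc
    have : 0 < (z.re ^ 2 - 1 / 4) * (4 * z.im ^ 2 + 1) := by
      apply mul_pos (by linarith) (by positivity)
    linarith
  exact abs_le_of_sq_le_sq hs (by norm_num)

/-- Approximants of `XT τ`. -/
theorem approx (τ : ℝ) (hτ : 0 ≤ τ) : ∃ Q : ℕ → ℂ[X],
    TendstoLocallyUniformly (fun (N : ℕ) (z : ℂ) => (Q N).eval z) (XT τ) atTop ∧
    ∀ N (z : ℂ), (Q N).eval z = 0 → |z.re| ≤ 1 / 2 := by
  obtain ⟨-, ⟨P, hP⟩, -⟩ := goodA τ hτ
  obtain ⟨-, hX, -⟩ := b1A τ hτ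
  refine ⟨fun N => ((P N).map (algebraMap ℝ ℂ)).comp (X ^ 2), ?_, fun N z hz => ?_⟩
  · have h1 : TendstoLocallyUniformly (fun (N : ℕ) (z : ℂ) => aeval (z ^ 2) (P N))
        (fun z => FT τ (z ^ 2)) atTop :=
      hP.2.comp (fun z : ℂ => z ^ 2) (by fun_prop)
    have e1 : (fun z => FT τ (z ^ 2)) = XT τ := funext hX
    rw [e1] at h1
    refine h1.congr fun N z => ?_
    simp [eval_comp, eval_map_algebraMap]
  · have h2 : aeval (z ^ 2) (P N) = 0 := by
      simpa [eval_comp, eval_map_algebraMap] using hz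
    exact sq_par (hP.1 N _ h2)

theorem pderiv_iter {G : ℂ → ℂ} {Q : ℕ → ℂ[X]}
    (hQ : TendstoLocallyUniformly (fun (N : ℕ) (z : ℂ) => (Q N).eval z) G atTop) (n : ℕ) :
    TendstoLocallyUniformly (fun (N : ℕ) (z : ℂ) => (derivative^[n] (Q N)).eval z)
      (iteratedDeriv n G) atTop := by
  induction n with
  | zero => simpa using hQ
  | succ n ih =>
    have := pderiv ih
    rw [iteratedDeriv_succ]
    simpa only [Function.iterate_succ_apply'] using this

/-- `XT τ^(n)` does not vanish at `1`. -/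
theorem ne_one (τ : ℝ) (hτ : 0 ≤ τ) (n : ℕ) : iteratedDeriv n (XT τ) 1 ≠ 0 := by
  have := (ker.2 τ hτ).2.2.2.2 n 1 (Or.inr one_ne_zero)
  simpa using this

/-- Laguerre's inequality for the derivatives of the heat flow. -/
theorem lagT (τ : ℝ) (hτ : 0 ≤ τ) (n : ℕ) (x0 : ℝ)
    (hz : ∀ z : ℂ, |z.im - x0| ≤ 1 / 2 → iteratedDeriv n (XT τ) z = 0 → z.re = 0)
    (h0 : iteratedDeriv n (XT τ) (I * x0) ≠ 0) :
    0 ≤ (iteratedDeriv (n + 2) (XT τ) (I * x0) / iteratedDeriv n (XT τ) (I * x0) -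
      (iteratedDeriv (n + 1) (XT τ) (I * x0) / iteratedDeriv n (XT τ) (I * x0)) ^ 2).re := by
  obtain ⟨Q, hQ, hs⟩ := approx τ hτ
  have hd : Differentiable ℂ (XT τ) := (ker.2 τ hτ).1
  have hQn := pderiv_iter hQ n
  have hev : ∀ᶠ N in atTop, derivative^[n] (Q N) ≠ 0 := by
    have h1 := (OpLagAux.pw hQn 1).eventually_ne (ne_one τ hτ n)
    filter_upwards [h1] with N hN h2
    rw [h2] at hN
    simp at hN
  have key := lagZ (G := iteratedDeriv n (XT τ)) (OpBase.diff_iter hd n) hQn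
    (hev.mono fun N hN => gl_strip (Q N) (hs N) n hN) x0 hz h0
  rwa [← iteratedDeriv_succ, ← iteratedDeriv_succ] at key

end Pool.Agent.H986R2.SZ
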