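import Pool.Agent.H986R2.SZ.Fin

set_option autoImplicit false

/-!
# The real zeros of `H 0` are the zeros of `ζ` on the critical line
-/

namespace Pool.Agent.H986R2.SZ

open Complex Filter Topology Pool.Agent.H24R2 Pool.Agent.H24R2.JP Pool.Agent.H986R2.DBN

theorem XX_eq {z : ℂ} (hz : |z.re| < 1 / 2) : XX z = HH z * riemannZeta (1 / 2 + z) := by
  have h1 := abs_lt.1 hz
  have hs : (1 / 2 + z : ℂ).re = 1 / 2 + z.re := by
    rw [Complex.add_re]; norm_num
  have hs0 : (1 / 2 + z : ℂ) ≠ 0 := by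
    intro h
    have := congrArg Complex.re h
    rw [hs] at this
    simp at this
    linarith
  have hs1 : (1 - (1 / 2 + z) : ℂ) ≠ 0 := by
    intro h
    have := congrArg Complex.re h
    rw [Complex.sub_re, hs] at this
    simp at this
    linarith
  have hG : Gammaℝ (1 / 2 + z) ≠ 0 := Gammaℝ_ne_zero_of_re_pos (by rw [hs]; linarith)
  rw [riemannZeta_def_of_ne_zero hs0, completedRiemannZeta_eq]
  unfold XX HH
  have key : ∀ A G B : ℂ, G ≠ 0 → A * G * (B / G) = A * B := by
    intro A G B hG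
    field_simp
  rw [key _ _ _ hG]
  have e2 : ∀ s : ℂ, s ≠ 0 → 1 - s ≠ 0 → (-4 * (s * (1 - s))) * (1 / s + 1 / (1 - s)) = -4 := by
    intro s hs hs'
    field_simp
    ring
  have e3 := e2 (1 / 2 + z) hs0 hs1
  linear_combination e3

theorem HH_ne {z : ℂ} (hz : |z.re| < 1 / 2) : HH z ≠ 0 := by
  have h1 := abs_lt.1 hz
  have hs : (1 / 2 + z : ℂ).re = 1 / 2 + z.re := by
    rw [Complex.add_re]; norm_num
  have hG : Gammaℝ (1 / 2 + z) ≠ 0 := Gammaℝ_ne_zero_of_re_pos (by rw [hs]; linarith)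
  refine mul_ne_zero ?_ hG
  intro h
  have h2 : (2 * z - 1) * (2 * z + 1) = 0 := by linear_combination h
  rcases mul_eq_zero.1 h2 with h3 | h3
  · have := congrArg Complex.re h3
    simp at this
    linarith
  · have := congrArg Complex.re h3
    simp at this
    linarith

theorem HH_diff {z : ℂ} (hz : |z.re| < 1 / 2) : DifferentiableAt ℂ HH z := by
  have h1 := abs_lt.1 hz
  have hs : (1 / 2 + z : ℂ).re = 1 / 2 + z.re := by
    rw [Complex.add_re]; norm_num
  have hG : DifferentiableAt ℂ Gammaℝ (1 / 2 + z) := by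
    have h2 := differentiable_Gammaℝ_inv (1 / 2 + z)
    have h3 : Gammaℝ = fun s => ((fun s => (Gammaℝ s)⁻¹) s)⁻¹ := by
      funext s; simp
    rw [h3]
    exact h2.inv (inv_ne_zero (Gammaℝ_ne_zero_of_re_pos (by rw [hs]; linarith)))
  unfold HH
  have h4 : DifferentiableAt ℂ (fun z : ℂ => Gammaℝ (1 / 2 + z)) z :=
    DifferentiableAt.comp z hG (by fun_prop)
  exact DifferentiableAt.mul (by fun_prop) h4

theorem zeta_XX (y : ℝ) : (XX (I * y) = 0 ↔ riemannZeta (1 / 2 + I * y) = 0) ∧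
    (riemannZeta (1 / 2 + I * y) = 0 →
      (deriv XX (I * y) = 0 ↔ deriv riemannZeta (1 / 2 + I * y) = 0)) := by
  have hre : |(I * (y : ℂ)).re| < 1 / 2 := by simp
  have hne := HH_ne hre
  refine ⟨?_, fun h0 => ?_⟩
  · rw [XX_eq hre, mul_eq_zero]
    exact ⟨fun h => h.resolve_left hne, Or.inr⟩
  · have hev : XX =ᶠ[𝓝 (I * (y : ℂ))] fun z => HH z * riemannZeta (1 / 2 + z) := by
      have hopen : IsOpen {z : ℂ | |z.re| < 1 / 2} :=
        isOpen_lt Complex.continuous_re.abs continuous_const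
      filter_upwards [hopen.mem_nhds hre] with z hz
      exact XX_eq hz
    have hs1 : (1 / 2 + I * (y : ℂ)) ≠ 1 := by
      intro h
      have := congrArg Complex.re h
      simp at this
    have hz : HasDerivAt (fun z : ℂ => riemannZeta (1 / 2 + z))
        (deriv riemannZeta (1 / 2 + I * y)) (I * y) := by
      have h1 := (differentiableAt_riemannZeta hs1).hasDerivAt
      exact h1.comp_const_add (1 / 2) (I * (y : ℂ))
    have h2 : HasDerivAt (fun z : ℂ => HH z * riemannZeta (1 / 2 + z))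
        (deriv HH (I * y) * riemannZeta (1 / 2 + I * y) +
          HH (I * y) * deriv riemannZeta (1 / 2 + I * y)) (I * y) :=
      (HH_diff hre).hasDerivAt.mul hz
    rw [hev.deriv_eq, h2.deriv, h0, mul_zero, zero_add, mul_eq_zero]
    exact ⟨fun h => h.resolve_left hne, Or.inr⟩

/-- The case `t = 0`, `n = 0`. -/
theorem bridge : (∀ y : ℝ, riemannZeta (1 / 2 + I * y) = 0 → deriv riemannZeta (1 / 2 + I * y) ≠ 0) ↔
    ∀ z : ℂ, z.im = 0 → iteratedDeriv 0 (Ht 0) z = 0 → iteratedDeriv 1 (Ht 0) z ≠ 0 := by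
  have e0 : ∀ z : ℂ, iteratedDeriv 0 (Ht 0) z = 1 / 64 * XX (I * z / 2) := by
    intro z
    rw [classHA 0 0 z le_rfl, zero_div, ker.1]
    simp
  have e1 : ∀ z : ℂ, iteratedDeriv 1 (Ht 0) z = I / 2 / 64 * deriv XX (I * z / 2) := by
    intro z
    rw [classHA 0 1 z le_rfl, zero_div, ker.1, iteratedDeriv_one]
    simp
  constructor
  · intro h z hz h0
    have hz' : I * z / 2 = I * ((z.re / 2 : ℝ) : ℂ) := by
      have : z = (z.re : ℂ) := by apply Complex.ext <;> simp [hz]
      conv_lhs => rw [this]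
      push_cast
      ring
    rw [e0, hz'] at h0
    rw [e1, hz']
    have h1 := (mul_eq_zero.1 h0).resolve_left (by norm_num)
    have h2 := (zeta_XX (z.re / 2)).1.1 h1
    refine mul_ne_zero (div_ne_zero (div_ne_zero I_ne_zero two_ne_zero) (by norm_num)) ?_
    intro h3
    exact h _ h2 (((zeta_XX (z.re / 2)).2 h2).1 h3)
  · intro h y h0 h1
    have h2 := h ((2 * y : ℝ) : ℂ) (by simp)
    have e : I * ((2 * y : ℝ) : ℂ) / 2 = I * y := by push_cast; ring
    rw [e0, e1, e] at h2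
    refine h2 ?_ ?_
    · rw [(zeta_XX y).1.2 h0, mul_zero]
    · rw [((zeta_XX y).2 h0).2 h1, mul_zero]

end Pool.Agent.H986R2.SZ
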