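import Pool.Agent.H986R2.DBN.All

set_option autoImplicit false

/-!
# Nonreal zeros of all derivatives, uniformly in the heat parameter
-/

namespace Pool.Agent.H986R2.SZ

open Complex Filter Topology Pool.Agent.H24R2 Pool.Agent.H24R2.JP Pool.Agent.H986R2.DBN
open Pool.Agent.H24R2.JP.ChainAux (parent_norm)

theorem FT_zero : FT 0 = FF := by
  have h : Pool.Agent.H986R2.DBN.gamT 0 = gam := by
    funext k
    unfold Pool.Agent.H986R2.DBN.gamT gam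
    rw [ker.1]
  unfold FT FF
  rw [h]

theorem chainU : ∃ N1 : ℕ, ∀ τ : ℝ, 0 ≤ τ → ∀ n : ℕ, N1 ≤ n → ∀ w : ℂ, w.im ≠ 0 →
    iteratedDeriv n (FT τ) w = 0 → Real.exp (n / 5) < ‖w‖ := by
  obtain ⟨N2, hN2⟩ := JP.chainT
  obtain ⟨C, N3, hC, hN3⟩ := chainA
  obtain ⟨n1, hwin⟩ := winA (max C 1) (le_max_right _ _)
  set n2 := max n1 1000 with hn2
  have hn2a : n1 ≤ n2 := le_max_left _ _
  have hn2b : 1000 ≤ n2 := le_max_right _ _
  set A : ℝ := Real.exp (49 / 250 * (n2 : ℝ)) with hA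
  have hA0 : 0 < A := Real.exp_pos _
  obtain ⟨N0, hN0⟩ := lowA (3 * A)
  refine ⟨max (max N2 N3) (max (max n2 N0) 1), ?_⟩
  intro τ hτ n hn w him hw0
  have hnN2 : N2 ≤ n := ((le_max_left _ _).trans (le_max_left _ _)).trans hn
  have hnN3 : N3 ≤ n := ((le_max_right _ _).trans (le_max_left _ _)).trans hn
  have hnn2 : n2 ≤ n := (((le_max_left _ _).trans (le_max_left _ _)).trans (le_max_right _ _)).trans hn
  have hnN0 : N0 ≤ n := (((le_max_right _ _).trans (le_max_left _ _)).trans (le_max_right _ _)).trans hn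
  have hn1 : 1 ≤ n := ((le_max_right _ _).trans (le_max_right _ _)).trans hn
  rcases hτ.eq_or_lt with rfl | hτ0
  · rw [FT_zero] at hw0
    exact hN2 n hnN2 w him hw0
  rcases le_or_gt (1 / 8) τ with hτ8 | hτ8
  · exact absurd (bigA τ hτ8 n w hw0) him
  rcases le_or_gt C (n * τ) with hCn | hCn
  · exact absurd (hN3 τ hτ0 hτ8.le n hnN3 hCn w hw0) him
  -- the window argument
  have hG : Good (FT τ) := goodA τ hτ
  have hwinlev : ∀ k : ℕ, n2 ≤ k → k ≤ n → ∀ x : ℂ, x ∈ Par → x.im ≠ 0 →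
      Real.exp (49 / 250 * k) ≤ ‖x‖ → ‖x‖ ≤ Real.exp (51 / 250 * k) →
      iteratedDeriv k (FT τ) x ≠ 0 := by
    intro k hk hk' x hx hxi ha hb
    refine hwin τ hτ0 hτ8.le k (hn2a.trans hk) ?_ x hx hxi ha hb
    have h1 : (k : ℝ) ≤ n := by exact_mod_cast hk'
    have h2 : (k : ℝ) * τ ≤ n * τ := mul_le_mul_of_nonneg_right h1 hτ
    exact (h2.trans hCn.le).trans (le_max_left _ _)
  have key : ∀ k : ℕ, n2 + k ≤ n → ∀ w : ℂ, w.im ≠ 0 → iteratedDeriv (n2 + k) (FT τ) w = 0 →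
      ‖w‖ ≤ Real.exp (49 / 250 * ((n2 + k : ℕ) : ℝ)) → |w.im| ≤ A ∧ |w.re| ≤ A * (k + 1) := by
    intro k
    induction k with
    | zero =>
      intro _ w _ _ hw
      simp only [add_zero] at hw
      rw [← hA] at hw
      refine ⟨(Complex.abs_im_le_norm w).trans hw, ?_⟩
      simpa using (Complex.abs_re_le_norm w).trans hw
    | succ k ih =>
      intro hkk w him hw0 hw
      have hcast : ((n2 + (k + 1) : ℕ) : ℝ) = ((n2 + k : ℕ) : ℝ) + 1 := by push_cast; ring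
      rw [hcast] at hw
      obtain ⟨z, hzim, hz0, hzw⟩ := JP.circT (FT τ) hG (n2 + k) w him hw0
      have hzPar : z ∈ Par := JP.parT (FT τ) hG (n2 + k) z hz0
      have hzn := (parent_norm hzPar hzw hw).trans (ChnT.growth (n2 + k) (by omega))
      have hzlt : ‖z‖ ≤ Real.exp (49 / 250 * ((n2 + k : ℕ) : ℝ)) := by
        by_contra hcon
        push Not at hcon
        exact hwinlev (n2 + k) (by omega) (by omega) z hzPar hzim hcon.le hzn hz0
      obtain ⟨i1, i2⟩ := ih (by omega) z hzim hz0 hzlt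
      obtain ⟨j1, j2⟩ := ChnT.step_bd hzw
      refine ⟨j1.trans i1, ?_⟩
      push_cast
      linarith [mul_add A ((k : ℝ) + 1) 1]
  by_contra hcon
  push Not at hcon
  have hwPar : w ∈ Par := JP.parT (FT τ) hG n w hw0
  have hup : ‖w‖ ≤ Real.exp (51 / 250 * (n : ℝ)) :=
    hcon.trans (Real.exp_le_exp.2 (by
      have : (0 : ℝ) ≤ n := Nat.cast_nonneg n
      linarith))
  have hlow : ‖w‖ ≤ Real.exp (49 / 250 * (n : ℝ)) := by
    by_contra hc
    push Not at hc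
    exact hwinlev n hnn2 le_rfl w hwPar him hc.le hup hw0
  obtain ⟨k, rfl⟩ := Nat.exists_eq_add_of_le hnn2
  obtain ⟨i1, i2⟩ := key k le_rfl w him hw0 hlow
  have h9 : ‖w‖ ≤ |w.re| + |w.im| := Complex.norm_le_abs_re_add_abs_im w
  have h10 := hN0 τ hτ hτ8.le (n2 + k) hnN0 w hw0
  have h11 : (1 : ℝ) ≤ ((n2 + k : ℕ) : ℝ) := by exact_mod_cast hn1
  have h12 : (k : ℝ) ≤ ((n2 + k : ℕ) : ℝ) := by push_cast; linarith [Nat.cast_nonneg (α := ℝ) n2]
  nlinarith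

/-- Nonreal zeros above: `‖w‖ ≤ (exp (C1/τ) + 1 + n)²`. -/
theorem aboveX : ∃ C1 : ℝ, 1 ≤ C1 ∧ ∀ τ : ℝ, 0 < τ → τ ≤ 1 / 8 → ∀ n : ℕ, ∀ w : ℂ, w.im ≠ 0 →
    iteratedDeriv n (FT τ) w = 0 → ‖w‖ ≤ (Real.exp (C1 / τ) + 1 + n) ^ 2 := by
  obtain ⟨C1, hC1, h6⟩ := heatNZA
  refine ⟨C1, hC1, fun τ hτ hτ8 n w him hw => ?_⟩
  have hG : Good (FT τ) := goodA τ hτ.le
  obtain ⟨-, hB2, hB3, -, -⟩ := b1A τ hτ.le
  have hL0 : ∀ w : ℂ, w.im ≠ 0 → iteratedDeriv 0 (FT τ) w = 0 →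
      ‖w‖ ≤ (Real.exp (C1 / τ) + 1) ^ 2 := by
    intro w him hw
    rw [iteratedDeriv_zero] at hw
    refine ChnT.level0 (fun w hw => JP.parT (FT τ) hG 0 w (by rw [iteratedDeriv_zero]; exact hw)) ?_ hB2 hB3
      him hw
    intro σ t hσ hσ2 ht
    exact h6 τ hτ hτ8 σ t hσ hσ2 ht
  have hb1 : (1 : ℝ) ≤ Real.exp (C1 / τ) + 1 := by
    have := Real.exp_pos (C1 / τ)
    linarith
  exact ChnT.drift2 JP.parT JP.circT hG hb1 hL0 n w him hw

end Pool.Agent.H986R2.SZ
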