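import Pool.Agent.H986R2.DBN.Ker

set_option autoImplicit false

/-!
# Expansion of the heat flow in the time variable
-/

namespace Pool.Agent.H986R2.SZ

open Complex Filter Topology MeasureTheory Pool.Agent.H24R2.JP Pool.Agent.H986R2.DBN
open Pool.Agent.Helper242.KK (Ph Ph_even Ph_pos Ph_upper continuous_Ph)

/-- The integrand of `XT τ^(n)`. -/
noncomputable def AA (τ : ℝ) (z0 : ℂ) (n : ℕ) (u : ℝ) : ℂ :=
  ((u ^ n * (Ph u * Real.exp (τ * u ^ 2)) : ℝ) : ℂ) * cexp (z0 * u)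

theorem AA_int {τ : ℝ} (hτ : 0 ≤ τ) (z0 : ℂ) (n : ℕ) : Integrable (AA τ z0 n) :=
  MomAux.L_integrable ((Cl_w τ hτ).pow n) z0

theorem AA_cont (τ : ℝ) (z0 : ℂ) (n : ℕ) : Continuous (AA τ z0 n) := by
  unfold AA
  have := continuous_Ph
  fun_prop

theorem XT_AA {τ : ℝ} (hτ : 0 ≤ τ) (z0 : ℂ) (n : ℕ) :
    iteratedDeriv n (XT τ) z0 = 8 * ∫ u : ℝ, AA τ z0 n u := KerAux.XT_iter hτ n z0

/-- The Taylor remainder of the exponential function, divided by `δ ^ k`. -/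
noncomputable def rr (k : ℕ) (u δ : ℝ) : ℂ :=
  (cexp (((-(δ * u ^ 2) : ℝ)) : ℂ) - ∑ i ∈ Finset.range k, (((-(δ * u ^ 2) : ℝ)) : ℂ) ^ i / (i.factorial : ℂ)) /
    (δ : ℂ) ^ k

theorem rr_bound (k : ℕ) (u : ℝ) {δ : ℝ} (hδ : 0 < δ) (hδ1 : δ ≤ 1) :
    ‖rr k u δ‖ ≤ u ^ (2 * k) * Real.exp (u ^ 2) := by
  have h := Complex.norm_exp_sub_sum_le_norm_mul_exp (((-(δ * u ^ 2) : ℝ)) : ℂ) k
  unfold rr
  rw [norm_div, norm_pow, Complex.norm_real, Real.norm_eq_abs, abs_of_pos hδ,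
    div_le_iff₀ (pow_pos hδ k)]
  refine h.trans ?_
  have e : ‖(((-(δ * u ^ 2) : ℝ)) : ℂ)‖ = δ * u ^ 2 := by
    rw [Complex.norm_real, Real.norm_eq_abs, abs_neg, abs_of_nonneg (by positivity)]
  rw [e]
  have h2 : Real.exp (δ * u ^ 2) ≤ Real.exp (u ^ 2) := by
    apply Real.exp_le_exp.2
    nlinarith [sq_nonneg u]
  calc (δ * u ^ 2) ^ k * Real.exp (δ * u ^ 2) ≤ (δ * u ^ 2) ^ k * Real.exp (u ^ 2) := by gcongr
    _ = u ^ (2 * k) * Real.exp (u ^ 2) * δ ^ k := by rw [mul_pow, ← pow_mul]; ring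

theorem rr_lim (k : ℕ) (u : ℝ) :
    Tendsto (fun δ : ℝ => rr k u δ) (𝓝[>] 0) (𝓝 ((-1) ^ k / (k.factorial : ℂ) * (u : ℂ) ^ (2 * k))) := by
  rw [tendsto_iff_norm_sub_tendsto_zero]
  have hlim : Tendsto (fun δ : ℝ => δ * (u ^ (2 * (k + 1)) * Real.exp (u ^ 2))) (𝓝[>] 0) (𝓝 0) := by
    have h1 : Tendsto (fun δ : ℝ => δ * (u ^ (2 * (k + 1)) * Real.exp (u ^ 2))) (𝓝 0) (𝓝 (0 * (u ^ (2 * (k + 1)) * Real.exp (u ^ 2)))) :=
      tendsto_id.mul_const _
    rw [zero_mul] at h1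
    exact h1.mono_left nhdsWithin_le_nhds
  refine squeeze_zero' (Eventually.of_forall fun δ => norm_nonneg _) ?_ hlim
  have h1 : ∀ᶠ δ : ℝ in 𝓝[>] 0, δ ∈ Set.Ioo (0 : ℝ) 1 := Ioo_mem_nhdsGT one_pos
  filter_upwards [h1] with δ hδ
  have hb := rr_bound (k + 1) u hδ.1 hδ.2.le
  have hδ0 : (δ : ℂ) ≠ 0 := by exact_mod_cast hδ.1.ne'
  have e : rr k u δ - (-1) ^ k / (k.factorial : ℂ) * (u : ℂ) ^ (2 * k) = (δ : ℂ) * rr (k + 1) u δ := by
    unfold rr
    rw [Finset.sum_range_succ]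
    have e1 : (((-(δ * u ^ 2) : ℝ)) : ℂ) ^ k = (δ : ℂ) ^ k * ((-1) ^ k * (u : ℂ) ^ (2 * k)) := by
      push_cast
      rw [neg_pow, mul_pow, ← pow_mul]
      ring
    rw [e1]
    have hk : (k.factorial : ℂ) ≠ 0 := by exact_mod_cast k.factorial_ne_zero
    rw [pow_succ]
    field_simp
    ring
  rw [e, norm_mul, Complex.norm_real, Real.norm_eq_abs, abs_of_pos hδ.1]
  exact mul_le_mul_of_nonneg_left hb hδ.1.le

/-- The first nonvanishing coefficient of the expansion of `XT (τ - δ)^(j)` in powers of `δ`. -/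
theorem expd {τ : ℝ} (hτ : 0 < τ) (z0 : ℂ) (j k : ℕ)
    (h : ∀ i < k, iteratedDeriv (j + 2 * i) (XT τ) z0 = 0) :
    Tendsto (fun δ : ℝ => iteratedDeriv j (XT (τ - δ)) z0 / (δ : ℂ) ^ k) (𝓝[>] 0)
      (𝓝 ((-1) ^ k / (k.factorial : ℂ) * iteratedDeriv (j + 2 * k) (XT τ) z0)) := by
  have hdct : Tendsto (fun δ : ℝ => ∫ u : ℝ, AA τ z0 j u * rr k u δ) (𝓝[>] 0)
      (𝓝 (∫ u : ℝ, AA τ z0 j u * ((-1) ^ k / (k.factorial : ℂ) * (u : ℂ) ^ (2 * k)))) := by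
    refine tendsto_integral_filter_of_dominated_convergence (fun u => ‖AA (τ + 1) z0 (j + 2 * k) u‖)
      ?_ ?_ (AA_int (by linarith) z0 _).norm ?_
    · refine Eventually.of_forall fun δ => Continuous.aestronglyMeasurable ?_
      have := AA_cont τ z0 j
      unfold rr
      fun_prop
    · have h1 : ∀ᶠ δ : ℝ in 𝓝[>] 0, δ ∈ Set.Ioo (0 : ℝ) 1 := Ioo_mem_nhdsGT one_pos
      filter_upwards [h1] with δ hδ
      refine Eventually.of_forall fun u => ?_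
      rw [norm_mul]
      refine (mul_le_mul_of_nonneg_left (rr_bound k u hδ.1 hδ.2.le) (norm_nonneg _)).trans (le_of_eq ?_)
      unfold AA
      rw [norm_mul, norm_mul, Complex.norm_real, Complex.norm_real, Real.norm_eq_abs,
        Real.norm_eq_abs, abs_mul, abs_mul, abs_mul, abs_mul, abs_of_pos (Real.exp_pos _),
        abs_of_pos (Real.exp_pos _), pow_add, abs_mul, abs_of_nonneg (by rw [pow_mul]; positivity : (0:ℝ) ≤ u ^ (2 * k))]
      have e : Real.exp ((τ + 1) * u ^ 2) = Real.exp (τ * u ^ 2) * Real.exp (u ^ 2) := by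
        rw [← Real.exp_add]; congr 1; ring
      rw [e]
      ring
    · exact Eventually.of_forall fun u => (rr_lim k u).const_mul _
  have hrhs : 8 * (∫ u : ℝ, AA τ z0 j u * ((-1) ^ k / (k.factorial : ℂ) * (u : ℂ) ^ (2 * k))) =
      (-1) ^ k / (k.factorial : ℂ) * iteratedDeriv (j + 2 * k) (XT τ) z0 := by
    have e : (fun u : ℝ => AA τ z0 j u * ((-1) ^ k / (k.factorial : ℂ) * (u : ℂ) ^ (2 * k))) =
        fun u => (-1) ^ k / (k.factorial : ℂ) * AA τ z0 (j + 2 * k) u := by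
      funext u
      unfold AA
      push_cast
      ring
    rw [e, integral_const_mul, XT_AA hτ.le]
    ring
  rw [← hrhs]
  refine (hdct.const_mul 8).congr' ?_
  have h1 : ∀ᶠ δ : ℝ in 𝓝[>] 0, δ ∈ Set.Ioo (0 : ℝ) τ := Ioo_mem_nhdsGT hτ
  filter_upwards [h1] with δ hδ
  have hτδ : 0 ≤ τ - δ := by linarith [hδ.2]
  rw [XT_AA hτδ]
  have e : (fun u : ℝ => AA τ z0 j u * rr k u δ) = fun u : ℝ =>
      (AA (τ - δ) z0 j u - ∑ i ∈ Finset.range k, ((-δ : ℝ) : ℂ) ^ i / (i.factorial : ℂ) *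
        AA τ z0 (j + 2 * i) u) / (δ : ℂ) ^ k := by
    funext u
    unfold rr
    rw [mul_div_assoc', mul_sub, Finset.mul_sum]
    congr 2
    · unfold AA
      rw [← Complex.ofReal_exp]
      have e : Real.exp ((τ - δ) * u ^ 2) = Real.exp (τ * u ^ 2) * Real.exp (-(δ * u ^ 2)) := by
        rw [← Real.exp_add]; congr 1; ring
      rw [e]
      push_cast
      ring
    · refine Finset.sum_congr rfl fun i _ => ?_
      unfold AA
      push_cast
      ring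
  rw [e, integral_div, integral_sub (AA_int hτδ z0 j), integral_finset_sum]
  · have h0 : ∑ i ∈ Finset.range k, ∫ u : ℝ, ((-δ : ℝ) : ℂ) ^ i / (i.factorial : ℂ) *
        AA τ z0 (j + 2 * i) u = 0 := by
      refine Finset.sum_eq_zero fun i hi => ?_
      rw [integral_const_mul]
      have h2 := h i (Finset.mem_range.1 hi)
      rw [XT_AA hτ.le] at h2
      rw [(mul_eq_zero.1 h2).resolve_left (by norm_num), mul_zero]
    rw [h0, sub_zero]
    ring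
  · intro i _
    exact (AA_int hτ.le z0 _).const_mul _
  · exact integrable_finset_sum _ fun i _ => (AA_int hτ.le z0 _).const_mul _

end Pool.Agent.H986R2.SZ
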