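import Pool.Agent.H986R2.SZ.AppZ
import Pool.Agent.H986R2.SZ.Expd

set_option autoImplicit false

/-!
# The flow argument: zeros are simple if they were real just before
-/

namespace Pool.Agent.H986R2.SZ

open Complex Filter Topology Pool.Agent.H24R2.JP Pool.Agent.H986R2.DBN

theorem exists_ne {τ : ℝ} (hτ : 0 ≤ τ) (n : ℕ) (z0 : ℂ) :
    ∃ m : ℕ, iteratedDeriv (n + m) (XT τ) z0 ≠ 0 := by
  by_contra hcon
  push Not at hcon
  have hd : Differentiable ℂ (XT τ) := (ker.2 τ hτ).1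
  have h1 := Complex.hasSum_taylorSeries_of_entire (OpBase.diff_iter hd n) z0 1
  have h2 : (fun m : ℕ => ((m.factorial : ℂ)⁻¹ • ((1 : ℂ) - z0) ^ m •
      iteratedDeriv m (iteratedDeriv n (XT τ)) z0)) = fun _ => 0 := by
    funext m
    have e : iteratedDeriv m (iteratedDeriv n (XT τ)) = iteratedDeriv (n + m) (XT τ) := by
      rw [iteratedDeriv_eq_iterate, iteratedDeriv_eq_iterate, iteratedDeriv_eq_iterate,
        ← Function.iterate_add_apply, Nat.add_comm]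
    rw [e, hcon m]
    simp
  rw [h2] at h1
  exact ne_one τ hτ n (h1.unique hasSum_zero)

/-- The contradiction at a zero of even order `2 k`. -/
theorem flow_even {τ δ0 : ℝ} (hδ0 : 0 < δ0) (hδτ : δ0 ≤ τ) (n k : ℕ) (x0 : ℝ)
    (hz : ∀ s : ℝ, τ - δ0 < s → s < τ → ∀ z : ℂ, |z.im - x0| ≤ 1 / 2 →
      iteratedDeriv n (XT s) z = 0 → z.re = 0)
    (h0 : ∀ i < 2 * k, iteratedDeriv (n + i) (XT τ) (I * x0) = 0)
    (hne : iteratedDeriv (n + 2 * k) (XT τ) (I * x0) ≠ 0) : k = 0 := by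
  by_contra hk0
  have hτ : 0 < τ := by linarith
  obtain ⟨l, rfl⟩ : ∃ l, k = l + 1 := ⟨k - 1, by omega⟩
  set z0 : ℂ := I * x0 with hz0
  set c := iteratedDeriv (n + 2 * (l + 1)) (XT τ) z0 with hc
  have tA := expd hτ z0 n (l + 1) (fun i hi => h0 (2 * i) (by omega))
  have tB := expd hτ z0 (n + 1) (l + 1) (fun i hi => by
    have := h0 (1 + 2 * i) (by omega)
    rwa [← Nat.add_assoc] at this)
  have tD := expd hτ z0 (n + 2) l (fun i hi => by
    have := h0 (2 + 2 * i) (by omega)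
    rwa [← Nat.add_assoc] at this)
  have e1 : n + 2 + 2 * l = n + 2 * (l + 1) := by ring
  rw [e1, ← hc] at tD
  rw [← hc] at tA
  have hfl : ((l + 1).factorial : ℂ) ≠ 0 := by exact_mod_cast (l + 1).factorial_ne_zero
  have hfl' : (l.factorial : ℂ) ≠ 0 := by exact_mod_cast l.factorial_ne_zero
  have hm1 : ((-1 : ℂ)) ^ (l + 1) ≠ 0 := pow_ne_zero _ (by norm_num)
  have hAne : (-1 : ℂ) ^ (l + 1) / ((l + 1).factorial : ℂ) * c ≠ 0 :=
    mul_ne_zero (div_ne_zero hm1 hfl) hne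
  have tDA := tD.div tA hAne
  have tBA := (tB.div tA hAne).pow 2
  have hlim1 : (-1 : ℂ) ^ l / (l.factorial : ℂ) * c / ((-1) ^ (l + 1) / ((l + 1).factorial : ℂ) * c) =
      ((-(l + 1 : ℝ) : ℝ) : ℂ) := by
    have e2 : ((l + 1).factorial : ℂ) = ((l : ℂ) + 1) * (l.factorial : ℂ) := by
      rw [Nat.factorial_succ]; push_cast; ring
    rw [e2]
    have hl1 : ((l : ℂ) + 1) ≠ 0 := by exact_mod_cast l.succ_ne_zero
    have hml : ((-1 : ℂ)) ^ l ≠ 0 := pow_ne_zero _ (by norm_num)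
    rw [pow_succ]
    push_cast
    field_simp
  rw [hlim1] at tDA
  have tid : Tendsto (fun δ : ℝ => (δ : ℂ)) (𝓝[>] 0) (𝓝 0) := by
    have h1 : Tendsto (fun δ : ℝ => (δ : ℂ)) (𝓝 0) (𝓝 ((0 : ℝ) : ℂ)) :=
      Complex.continuous_ofReal.tendsto 0
    rw [Complex.ofReal_zero] at h1
    exact h1.mono_left nhdsWithin_le_nhds
  have tfin := tDA.sub (tid.mul tBA)
  rw [zero_mul, sub_zero] at tfin
  have tre := (Complex.continuous_re.tendsto _).comp tfin
  rw [Complex.ofReal_re] at tre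
  have hge : 0 ≤ -((l : ℝ) + 1) := by
    refine ge_of_tendsto tre ?_
    have h1 : ∀ᶠ δ : ℝ in 𝓝[>] 0, δ ∈ Set.Ioo (0 : ℝ) δ0 := Ioo_mem_nhdsGT hδ0
    filter_upwards [h1, tA.eventually_ne hAne] with δ hδ hA0
    have hδ0' : (δ : ℂ) ≠ 0 := by exact_mod_cast hδ.1.ne'
    have hne0 : iteratedDeriv n (XT (τ - δ)) z0 ≠ 0 := by
      intro h
      apply hA0
      rw [h, zero_div]
    have key := lagT (τ - δ) (by linarith [hδ.2]) n x0
      (hz (τ - δ) (by linarith [hδ.2]) (by linarith [hδ.1])) hne0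
    have e3 : ((iteratedDeriv (n + 2) (XT (τ - δ)) z0 / (δ : ℂ) ^ l) /
        (iteratedDeriv n (XT (τ - δ)) z0 / (δ : ℂ) ^ (l + 1)) -
        (δ : ℂ) * ((iteratedDeriv (n + 1) (XT (τ - δ)) z0 / (δ : ℂ) ^ (l + 1)) /
        (iteratedDeriv n (XT (τ - δ)) z0 / (δ : ℂ) ^ (l + 1))) ^ 2) =
        ((δ : ℝ) : ℂ) * (iteratedDeriv (n + 2) (XT (τ - δ)) z0 / iteratedDeriv n (XT (τ - δ)) z0 -
          (iteratedDeriv (n + 1) (XT (τ - δ)) z0 / iteratedDeriv n (XT (τ - δ)) z0) ^ 2) := by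
      have hp : (δ : ℂ) ^ l ≠ 0 := pow_ne_zero _ hδ0'
      rw [pow_succ]
      field_simp
    simp only [Function.comp_apply, Pi.div_apply, Pi.pow_apply]
    rw [e3, Complex.re_ofReal_mul]
    exact mul_nonneg hδ.1.le key
  have : (0 : ℝ) ≤ l := Nat.cast_nonneg l
  linarith

/-- Zeros on the axis are simple if just before all zeros nearby were on the axis. -/
theorem flow {τ δ0 : ℝ} (hδ0 : 0 < δ0) (hδτ : δ0 ≤ τ) (n : ℕ) (x0 : ℝ)
    (hz : ∀ s : ℝ, τ - δ0 < s → s < τ → ∀ z : ℂ, |z.im - x0| ≤ 1 / 2 →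
      iteratedDeriv n (XT s) z = 0 → z.re = 0)
    (hz' : ∀ s : ℝ, τ - δ0 < s → s < τ → ∀ z : ℂ, |z.im - x0| ≤ 1 / 2 →
      iteratedDeriv (n + 1) (XT s) z = 0 → z.re = 0)
    (h0 : iteratedDeriv n (XT τ) (I * x0) = 0) : iteratedDeriv (n + 1) (XT τ) (I * x0) ≠ 0 := by
  intro h1
  have hτ : 0 ≤ τ := by linarith
  classical
  have hex := exists_ne hτ n (I * x0)
  obtain ⟨m, hm, hmin⟩ : ∃ m, iteratedDeriv (n + m) (XT τ) (I * x0) ≠ 0 ∧
      ∀ i < m, iteratedDeriv (n + i) (XT τ) (I * x0) = 0 :=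
    ⟨Nat.find hex, Nat.find_spec hex, fun i hi => by
      have := Nat.find_min hex hi
      simpa using this⟩
  have hm2 : 2 ≤ m := by
    by_contra hlt
    have : m = 0 ∨ m = 1 := by omega
    rcases this with rfl | rfl
    · exact hm h0
    · exact hm h1
  rcases Nat.even_or_odd' m with ⟨k, rfl | rfl⟩
  · have := flow_even hδ0 hδτ n k x0 hz hmin hm
    omega
  · have hm' : iteratedDeriv (n + 1 + 2 * k) (XT τ) (I * x0) ≠ 0 := by
      have e : n + 1 + 2 * k = n + (2 * k + 1) := by ring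
      rwa [e]
    have := flow_even hδ0 hδτ (n + 1) k x0 hz' (fun i hi => by
      have e : n + 1 + i = n + (1 + i) := by ring
      rw [e]
      exact hmin (1 + i) (by omega)) hm'
    omega

end Pool.Agent.H986R2.SZ
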