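import Pool.Agent.H986R2.SZ.ZLev
import Pool.Agent.H986R2.SZ.Flow

set_option autoImplicit false

/-!
# Zeros of the derivatives of the heat flow are real and simple: final assembly
-/

namespace Pool.Agent.H986R2.SZ

open Complex Filter Topology Pool.Agent.H24R2 Pool.Agent.H24R2.JP Pool.Agent.H986R2.DBN

theorem axis {z : ℂ} (h : z.re = 0) : z = I * ((z.im : ℝ) : ℂ) := by
  apply Complex.ext <;> simp [h]

/-- For `τ > 1/8` all zeros are on the axis and simple. -/
theorem bigS (τ : ℝ) (hτ : 1 / 8 < τ) (n : ℕ) (z : ℂ) (hz : iteratedDeriv n (XT τ) z = 0) :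
    z.re = 0 ∧ iteratedDeriv (n + 1) (XT τ) z ≠ 0 := by
  have hre := bigZ τ hτ.le n z hz
  refine ⟨hre, ?_⟩
  rw [axis hre] at hz ⊢
  refine flow (δ0 := τ - 1 / 8) (by linarith) (by linarith) n z.im ?_ ?_ hz
  · intro s hs _ w _ hw
    exact bigZ s (by linarith) n w hw
  · intro s hs _ w _ hw
    exact bigZ s (by linarith) (n + 1) w hw

/-- Low zeros. -/
theorem lowS : ∃ M : ℕ, ∀ τ : ℝ, 0 ≤ τ → ∀ n : ℕ, M ≤ n → ∀ z : ℂ,
    iteratedDeriv n (XT τ) z = 0 → |z.im| ≤ Real.exp (n / 25) - 1 / 2 →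
      z.re = 0 ∧ iteratedDeriv (n + 1) (XT τ) z ≠ 0 := by
  obtain ⟨M, hM⟩ := lowZ
  obtain ⟨N0, hN0⟩ := JP.xiT
  refine ⟨max M N0, fun τ hτ n hn z hz him => ?_⟩
  have hMn : M ≤ n := (le_max_left _ _).trans hn
  have hre := hM τ hτ n hMn z hz (by linarith)
  refine ⟨hre, ?_⟩
  rcases hτ.eq_or_lt with rfl | hτ0
  · have e : iteratedDeriv n xi (z + 1 / 2) = 0 := by
      rw [XiFin.iter_xi, add_sub_cancel_right, ← ker.1, hz, mul_zero]
    obtain ⟨-, h2⟩ := hN0 n ((le_max_right _ _).trans hn) (z + 1 / 2) e (by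
      have e3 : (z + 1 / 2 : ℂ).im = z.im := by simp
      rw [e3]
      linarith)
    rw [XiFin.iter_xi, add_sub_cancel_right, ← ker.1] at h2
    exact right_ne_zero_of_mul h2
  · rw [axis hre] at hz ⊢
    refine flow (δ0 := τ) hτ0 le_rfl n z.im ?_ ?_ hz
    · intro s hs _ w hw hw0
      refine hM s (by linarith) n hMn w hw0 ?_
      have h1 : |w.im| ≤ |w.im - z.im| + |z.im| := by
        have := abs_add_le (w.im - z.im) z.im
        simpa using this
      linarith
    · intro s hs _ w hw hw0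
      refine hM s (by linarith) (n + 1) (by omega) w hw0 ?_
      have h1 : |w.im| ≤ |w.im - z.im| + |z.im| := by
        have := abs_add_le (w.im - z.im) z.im
        simpa using this
      have h2 : Real.exp ((n : ℝ) / 25) ≤ Real.exp (((n + 1 : ℕ) : ℝ) / 25) := by
        apply Real.exp_le_exp.2
        push_cast
        linarith
      linarith

/-- High zeros. -/
theorem highS : ∃ C : ℝ, 1 ≤ C ∧ ∀ τ : ℝ, 0 < τ → ∀ n : ℕ, ∀ z : ℂ,
    iteratedDeriv n (XT τ) z = 0 → Real.exp (C / τ) ≤ |z.im| →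
      z.re = 0 ∧ iteratedDeriv (n + 1) (XT τ) z ≠ 0 := by
  obtain ⟨C, hC, h⟩ := highZ
  refine ⟨2 * C + 1, by linarith, fun τ hτ n z hz him => ?_⟩
  rcases lt_or_ge (1 / 8) τ with h8 | h8
  · exact bigS τ h8 n z hz
  have hge : Real.exp (2 * C / τ) + 1 / 2 < Real.exp ((2 * C + 1) / τ) := by
    have e1 : Real.exp ((2 * C + 1) / τ) = Real.exp (2 * C / τ) * Real.exp (1 / τ) := by
      rw [← Real.exp_add]; congr 1; ring
    have e2 := Real.add_one_le_exp (1 / τ)
    have e3 : 1 ≤ 1 / τ := by rw [le_div_iff₀ hτ]; linarith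
    have e4 : 1 ≤ Real.exp (2 * C / τ) := Real.one_le_exp (by positivity)
    rw [e1]
    nlinarith
  have hmono : ∀ s : ℝ, τ / 2 < s → Real.exp (C / s) ≤ Real.exp (2 * C / τ) := by
    intro s hs
    apply Real.exp_le_exp.2
    rw [div_le_div_iff₀ (by linarith) hτ]
    nlinarith
  have hre := h τ hτ n z hz (by
    have := hmono τ (by linarith)
    linarith)
  refine ⟨hre, ?_⟩
  rw [axis hre] at hz ⊢
  have hstep : ∀ (s : ℝ) (w : ℂ), τ - τ / 2 < s → |w.im - z.im| ≤ 1 / 2 → Real.exp (C / s) < |w.im| := by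
    intro s w hs hw
    have h1 : |z.im| ≤ |w.im - z.im| + |w.im| := by
      have := abs_add_le (z.im - w.im) w.im
      rw [abs_sub_comm] at this
      simpa using this
    have := hmono s (by linarith)
    linarith
  refine flow (δ0 := τ / 2) (by linarith) (by linarith) n z.im ?_ ?_ hz
  · intro s hs _ w hw hw0
    exact h s (by linarith) n w hw0 (hstep s w hs hw)
  · intro s hs _ w hw hw0
    exact h s (by linarith) (n + 1) w hw0 (hstep s w hs hw)

/-- The whole region `n τ ≥ C`. -/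
theorem allS : ∃ C : ℝ, 0 < C ∧ ∀ τ : ℝ, 0 < τ → ∀ n : ℕ, C ≤ n * τ → ∀ z : ℂ,
    iteratedDeriv n (XT τ) z = 0 → z.re = 0 ∧ iteratedDeriv (n + 1) (XT τ) z ≠ 0 := by
  obtain ⟨C, hC, h⟩ := allZ
  refine ⟨2 * C, by linarith, fun τ hτ n hn z hz => ?_⟩
  have hre := h τ hτ n (by linarith) z hz
  refine ⟨hre, ?_⟩
  rw [axis hre] at hz ⊢
  have hn0 : (0 : ℝ) ≤ n := Nat.cast_nonneg n
  refine flow (δ0 := τ / 2) (by linarith) (by linarith) n z.im ?_ ?_ hz
  · intro s hs _ w _ hw0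
    exact h s (by linarith) n (by nlinarith) w hw0
  · intro s hs _ w _ hw0
    exact h s (by linarith) (n + 1) (by push_cast; nlinarith) w hw0

/-- The final statement. -/
theorem finalS : ∃ C : ℝ, 0 < C ∧
    (∀ (t : ℝ) (n : ℕ) (z : ℂ), 0 ≤ t → C ≤ n → iteratedDeriv n (Ht t) z = 0 →
      |z.re| ≤ Real.exp (n / C) → z.im = 0 ∧ iteratedDeriv (n + 1) (Ht t) z ≠ 0) ∧
    (∀ (t : ℝ) (n : ℕ) (z : ℂ), 0 < t → iteratedDeriv n (Ht t) z = 0 →
      Real.exp (C / t) ≤ |z.re| → z.im = 0 ∧ iteratedDeriv (n + 1) (Ht t) z ≠ 0) ∧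
    (∀ (t : ℝ) (n : ℕ) (z : ℂ), 0 < t → C ≤ n * t → iteratedDeriv n (Ht t) z = 0 →
      z.im = 0 ∧ iteratedDeriv (n + 1) (Ht t) z ≠ 0) := by
  obtain ⟨M, hM⟩ := lowS
  obtain ⟨C1, hC1, h1⟩ := highS
  obtain ⟨C2, hC2, h2⟩ := allS
  have conv : ∀ (t : ℝ) (n : ℕ) (z : ℂ), 0 ≤ t → iteratedDeriv n (Ht t) z = 0 →
      iteratedDeriv n (XT (t / 4)) (I * z / 2) = 0 := by
    intro t n z ht hz
    rw [classHA t n z ht] at hz
    have hne : (I / 2) ^ n / 64 ≠ 0 :=
      div_ne_zero (pow_ne_zero _ (div_ne_zero I_ne_zero two_ne_zero)) (by norm_num)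
    exact (mul_eq_zero.1 hz).resolve_left hne
  have e1 : ∀ z : ℂ, (I * z / 2).re = -z.im / 2 := by
    intro z
    have : I * z / 2 = ((1 / 2 : ℝ) : ℂ) * (I * z) := by push_cast; ring
    rw [this, Complex.re_ofReal_mul, Complex.I_mul_re]
    ring
  have e2 : ∀ z : ℂ, (I * z / 2).im = z.re / 2 := by
    intro z
    have : I * z / 2 = ((1 / 2 : ℝ) : ℂ) * (I * z) := by push_cast; ring
    rw [this, Complex.im_ofReal_mul, Complex.I_mul_im]
    ring
  have back : ∀ (t : ℝ) (n : ℕ) (z : ℂ), 0 ≤ t →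
      ((I * z / 2).re = 0 ∧ iteratedDeriv (n + 1) (XT (t / 4)) (I * z / 2) ≠ 0) →
      z.im = 0 ∧ iteratedDeriv (n + 1) (Ht t) z ≠ 0 := by
    rintro t n z ht ⟨a1, a2⟩
    rw [e1] at a1
    refine ⟨by linarith, ?_⟩
    rw [classHA t (n + 1) z ht]
    exact mul_ne_zero (div_ne_zero (pow_ne_zero _ (div_ne_zero I_ne_zero two_ne_zero))
      (by norm_num)) a2
  set C : ℝ := max (max (M + 1) 50) (max (8 * C1) (4 * C2)) with hC
  have c1 : (M : ℝ) + 1 ≤ C := (le_max_left _ _).trans (le_max_left _ _)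
  have c2 : (50 : ℝ) ≤ C := (le_max_right _ _).trans (le_max_left _ _)
  have c3 : 8 * C1 ≤ C := (le_max_left _ _).trans (le_max_right _ _)
  have c4 : 4 * C2 ≤ C := (le_max_right _ _).trans (le_max_right _ _)
  refine ⟨C, by linarith, ?_, ?_, ?_⟩
  · intro t n z ht hn hz hzre
    refine back t n z ht (hM (t / 4) (by linarith) n ?_ _ (conv t n z ht hz) ?_)
    · have : (M : ℝ) ≤ n := by linarith
      exact_mod_cast this
    · rw [e2, abs_div, abs_of_pos (by norm_num : (0 : ℝ) < 2)]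
      have hn50 : (50 : ℝ) ≤ n := c2.trans hn
      have h3 : Real.exp (n / C) ≤ Real.exp (n / 25) := by
        apply Real.exp_le_exp.2
        apply div_le_div_of_nonneg_left (by linarith) (by norm_num) (by linarith)
      have h4 : (1 : ℝ) ≤ Real.exp (n / 25) := Real.one_le_exp (by positivity)
      linarith
  · intro t n z ht hz hzre
    rcases lt_or_ge (1 / 2) t with ht2 | ht2
    · exact back t n z ht.le (bigS (t / 4) (by linarith) n _ (conv t n z ht.le hz))
    refine back t n z ht.le (h1 (t / 4) (by linarith) n _ (conv t n z ht.le hz) ?_)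
    rw [e2, abs_div, abs_of_pos (by norm_num : (0 : ℝ) < 2)]
    have e5 : C1 / (t / 4) = 4 * C1 / t := by
      field_simp
    rw [e5]
    have e6 : 1 ≤ 4 * C1 / t := by
      rw [le_div_iff₀ ht]; linarith
    have e7 : 2 * (4 * C1 / t) ≤ C / t := by
      rw [mul_div_assoc', div_le_div_iff_of_pos_right ht]
      linarith
    have e8 : Real.exp (4 * C1 / t) * Real.exp (4 * C1 / t) ≤ Real.exp (C / t) := by
      rw [← Real.exp_add]
      apply Real.exp_le_exp.2
      linarith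
    have e9 : 2 ≤ Real.exp (4 * C1 / t) := by
      have := Real.add_one_le_exp (4 * C1 / t)
      linarith
    nlinarith [Real.exp_pos (4 * C1 / t)]
  · intro t n z ht hn hz
    refine back t n z ht.le (h2 (t / 4) (by linarith) n ?_ _ (conv t n z ht.le hz))
    linarith

end Pool.Agent.H986R2.SZ
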