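import Pool.Agent.H24R2.JP.OpLag

set_option autoImplicit false

/-!
# Laguerre's inequality on the imaginary axis, local form
-/

namespace Pool.Agent.H986R2.SZ

open Complex Filter Metric Topology Polynomial Set Pool.Agent.H24R2.JP Pool.Agent.H24R2.JP.OpLagAux

theorem re_inv_sq_np {u : ℂ} (hu : |u.re| ≤ |u.im|) : (1 / u ^ 2).re ≤ 0 := by
  rw [one_div, Complex.inv_re]
  apply div_nonpos_of_nonpos_of_nonneg _ (Complex.normSq_nonneg _)
  have h : (u ^ 2).re = u.re ^ 2 - u.im ^ 2 := by
    rw [pow_two, Complex.mul_re]; ring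
  rw [h]
  have := sq_le_sq.2 hu
  linarith

/-- Convergence of the derivatives of polynomials. -/
theorem pderiv {G : ℂ → ℂ} {Q : ℕ → ℂ[X]}
    (hQ : TendstoLocallyUniformly (fun (N : ℕ) (z : ℂ) => (Q N).eval z) G atTop) :
    TendstoLocallyUniformly (fun (N : ℕ) (z : ℂ) => (derivative (Q N)).eval z) (deriv G) atTop := by
  rw [← tendstoLocallyUniformlyOn_univ] at hQ ⊢
  have h1 := hQ.deriv (Eventually.of_forall fun N =>
    (Q N).differentiable.differentiableOn) isOpen_univ
  have h2 : (deriv ∘ fun (N : ℕ) (x : ℂ) => (Q N).eval x) =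
      fun (N : ℕ) (x : ℂ) => (derivative (Q N)).eval x := by
    funext N
    rw [Function.comp_apply]
    funext x
    exact (Q N).deriv
  rwa [h2] at h1

/-- Laguerre's inequality at `i x0` if all zeros at height within `1/2` of `x0` are on the axis. -/
theorem lagZ {G : ℂ → ℂ} {Q : ℕ → ℂ[X]} (hG : Differentiable ℂ G)
    (hQ : TendstoLocallyUniformly (fun (N : ℕ) (z : ℂ) => (Q N).eval z) G atTop)
    (hs : ∀ᶠ N in atTop, ∀ z : ℂ, (Q N).eval z = 0 → |z.re| ≤ 1 / 2) (x0 : ℝ)
    (hz : ∀ z : ℂ, |z.im - x0| ≤ 1 / 2 → G z = 0 → z.re = 0) (h0 : G (I * x0) ≠ 0) :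
    0 ≤ (deriv (deriv G) (I * x0) / G (I * x0) - (deriv G (I * x0) / G (I * x0)) ^ 2).re := by
  set K : Set ℂ := {z : ℂ | |z.re| ≤ 1 / 2 ∧ |z.im - x0| ≤ 1 / 2 ∧ |x0 - z.im| ≤ |z.re|} with hK
  have hKc : IsCompact K := by
    apply Metric.isCompact_of_isClosed_isBounded
    · have e : K = {z : ℂ | |z.re| ≤ 1 / 2} ∩ ({z : ℂ | |z.im - x0| ≤ 1 / 2} ∩
          {z : ℂ | |x0 - z.im| ≤ |z.re|}) := by
        ext z; simp [hK]
      rw [e]
      refine (isClosed_le Complex.continuous_re.abs continuous_const).inter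
        ((isClosed_le (Complex.continuous_im.sub continuous_const).abs continuous_const).inter
          (isClosed_le (continuous_const.sub Complex.continuous_im).abs Complex.continuous_re.abs))
    · refine (Metric.isBounded_iff_subset_closedBall (I * (x0 : ℂ))).2 ⟨1, fun z hz => ?_⟩
      rw [mem_closedBall, dist_eq_norm]
      refine (Complex.norm_le_abs_re_add_abs_im _).trans ?_
      have h1 : (z - I * (x0 : ℂ)).re = z.re := by simp
      have h2 : (z - I * (x0 : ℂ)).im = z.im - x0 := by simp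
      rw [h1, h2]
      linarith [hz.1, hz.2.1]
  have hKf : ∀ z ∈ K, G z ≠ 0 := by
    intro z hzK h
    have him := hz z hzK.2.1 h
    have h2 := hzK.2.2
    rw [him, abs_zero] at h2
    have h3 : x0 - z.im = 0 := abs_eq_zero.1 (le_antisymm h2 (abs_nonneg _))
    apply h0
    have : I * (x0 : ℂ) = z := by
      apply Complex.ext
      · simp [him]
      · simp; linarith
    rw [this, h]
  obtain ⟨δ, hδ, hδf⟩ : ∃ δ : ℝ, 0 < δ ∧ ∀ z ∈ K, δ ≤ ‖G z‖ := by
    rcases K.eq_empty_or_nonempty with he | hne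
    · exact ⟨1, one_pos, by simp [he]⟩
    · obtain ⟨w, hw, hmin⟩ := hKc.exists_isMinOn hne hG.continuous.norm.continuousOn
      exact ⟨‖G w‖, norm_pos_iff.2 (hKf w hw), fun z hzK => hmin hzK⟩
  have hunif : TendstoUniformlyOn (fun (N : ℕ) (x : ℂ) => (Q N).eval x) G atTop K :=
    (tendstoLocallyUniformlyOn_iff_forall_isCompact isOpen_univ).1
      (hQ.tendstoLocallyUniformlyOn) _ (subset_univ _) hKc
  have hev := (Metric.tendstoUniformlyOn_iff.1 hunif) δ hδ
  have hgood : ∀ᶠ N in atTop, ∀ z : ℂ, (Q N).eval z = 0 → |z.re| ≤ |x0 - z.im| := by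
    filter_upwards [hev, hs] with N hN hsN z hz0
    by_contra hcon
    push Not at hcon
    have h4 := hsN z hz0
    have hzK : z ∈ K := by
      refine ⟨h4, ?_, hcon.le⟩
      rw [abs_sub_comm]
      linarith
    have h2 := hN z hzK
    have h3 := hδf z hzK
    rw [hz0, dist_zero_right] at h2
    linarith
  have hQ1 := pderiv hQ
  have hQ2 := pderiv hQ1
  have t0 : Tendsto (fun N => (Q N).eval (I * x0)) atTop (𝓝 (G (I * x0))) := pw hQ _
  have t1 : Tendsto (fun N => (derivative (Q N)).eval (I * x0)) atTop (𝓝 (deriv G (I * x0))) :=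
    pw hQ1 _
  have t2 : Tendsto (fun N => (derivative (derivative (Q N))).eval (I * x0)) atTop
      (𝓝 (deriv (deriv G) (I * x0))) := pw hQ2 _
  have t := (t2.div t0 h0).sub ((t1.div t0 h0).pow 2)
  have t' := (Complex.continuous_re.tendsto _).comp t
  refine ge_of_tendsto t' ?_
  filter_upwards [hgood, t0.eventually_ne h0] with N hN hN0
  have h := logsum (Q N) (I * x0) hN0
  simp only [Function.comp_apply, Pi.div_apply]
  rw [h, Complex.neg_re, neg_nonneg]
  have h5 : 0 ≤ (((Q N).roots.map (fun a => -(1 / (I * x0 - a) ^ 2))).sum).re := by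
    apply sum_re
    intro a ha
    have ha0 : (Q N).eval a = 0 := by
      by_cases hne : Q N = 0
      · rw [hne]; simp
      · exact (mem_roots hne).1 ha
    rw [Complex.neg_re, neg_nonneg]
    apply re_inv_sq_np
    have h1 : (I * (x0 : ℂ) - a).re = -a.re := by simp
    have h2 : (I * (x0 : ℂ) - a).im = x0 - a.im := by simp
    rw [h1, h2, abs_neg]
    exact hN a ha0
  rw [Multiset.sum_map_neg, Complex.neg_re] at h5
  linarith

end Pool.Agent.H986R2.SZ
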