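import Pool.Agent.H986R2.SZ.ChainU
import Pool.Agent.H986R2.SZ.AppZ
import Pool.Agent.H24R2.JP.All2

set_option autoImplicit false

/-!
# The zeros of `XT τ^(n)` below `exp (n/25)` and above `exp (C/τ)` are on the axis
-/

namespace Pool.Agent.H986R2.SZ

open Complex Filter Topology Pool.Agent.H24R2 Pool.Agent.H24R2.JP Pool.Agent.H986R2.DBN
open Pool.Agent.H24R2.JP.OpBase

/-- The operators: zeros in a disc stay real. -/
theorem TI_low (b : ℝ) (hb : 0 < b) (m : ℕ) : ∀ (f : ℂ → ℂ) (r : ℝ), Good f → 2 * (m : ℝ) + 4 ≤ r →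
    (∀ w : ℂ, ‖w‖ ≤ r ^ 2 → f w = 0 → w.im = 0) →
    ∀ w : ℂ, ‖w‖ ≤ (r - 2 * m) ^ 2 → TI b m f w = 0 → w.im = 0 := by
  induction m with
  | zero =>
    intro f r hf hr h w hw
    simp only [Nat.cast_zero, mul_zero, sub_zero] at hw
    exact h w hw
  | succ m ih =>
    intro f r hf hr h w hw
    push_cast at hr hw
    have hm0 : (0 : ℝ) ≤ m := Nat.cast_nonneg m
    have ha : 0 < b + m := by linarith
    have hreg := OpChainAux.step_real JP.parT (opCirc der) hf ha (by linarith : 6 ≤ r) h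
    refine ih (TT (b + m) f) (r - 2) (opGood der f _ hf ha) (by linarith) hreg w ?_
    rwa [show r - 2 - 2 * (m : ℝ) = r - 2 * ((m : ℝ) + 1) by ring]

/-- The operators: nonreal zeros stay bounded. -/
theorem TI_high (b : ℝ) (hb : 0 < b) (m : ℕ) : ∀ (f : ℂ → ℂ) (ρ : ℝ), Good f → 1 ≤ ρ →
    (∀ w : ℂ, w.im ≠ 0 → f w = 0 → ‖w‖ ≤ ρ ^ 2) →
    Good (TI b m f) ∧ ∀ w : ℂ, w.im ≠ 0 → TI b m f w = 0 → ‖w‖ ≤ (ρ + m) ^ 2 := by
  induction m with
  | zero =>
    intro f ρ hf hρ h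
    refine ⟨hf, fun w him hw => ?_⟩
    simpa using h w him hw
  | succ m ih =>
    intro f ρ hf hρ h
    have hm0 : (0 : ℝ) ≤ m := Nat.cast_nonneg m
    have ha : 0 < b + m := by linarith
    have hgood := opGood der f _ hf ha
    obtain ⟨g1, g2⟩ := ih (TT (b + m) f) (ρ + 1) hgood (by linarith) (by
      intro w him hw
      obtain ⟨z, hzim, hz0, hzw⟩ := opCirc der f _ hf ha w him hw
      have i1 := h z hzim hz0
      have hzPar : z.re + z.im ^ 2 ≤ 1 / 4 := JP.parT f hf 0 z (by rw [iteratedDeriv_zero]; exact hz0)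
      have h3 : |z.re| ≤ ρ ^ 2 := (Complex.abs_re_le_norm z).trans i1
      have h4 : |z.im| ≤ ρ + 1 / 2 := by
        have h6 := neg_abs_le z.re
        have h7 : z.im ^ 2 ≤ (ρ + 1 / 2) ^ 2 := by nlinarith
        exact abs_le_of_sq_le_sq h7 (by linarith)
      have h5 : ‖w‖ ≤ |z.re| + |z.im| := by
        have : ‖w‖ ≤ ‖((z.re : ℝ) : ℂ)‖ + ‖w - (z.re : ℂ)‖ := by
          have := norm_add_le ((z.re : ℝ) : ℂ) (w - (z.re : ℂ))
          simpa using this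
        rw [Complex.norm_real, Real.norm_eq_abs] at this
        linarith
      nlinarith)
    refine ⟨g1, fun w him hw => ?_⟩
    have := g2 w him hw
    push_cast
    rwa [show ρ + ((m : ℝ) + 1) = ρ + 1 + m by ring]

/-- A zero off the axis, in terms of the operators. -/
theorem zform {τ : ℝ} (hτ : 0 ≤ τ) (n : ℕ) (z : ℂ) (hz : iteratedDeriv n (XT τ) z = 0)
    (hre : z.re ≠ 0) : ∃ (m k : ℕ) (b : ℝ), 0 < b ∧ m ≤ k ∧ 2 * m ≤ n ∧ n ≤ 2 * m + 1 ∧ k ≤ n ∧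
      TI b m (iteratedDeriv k (FT τ)) (z ^ 2) = 0 ∧ (z ^ 2).im ≠ 0 := by
  obtain ⟨hd, hX, -⟩ := b1A τ hτ
  have hker := (ker.2 τ hτ).2.2.2.2
  have hxd := xderGen hd hX
  have him : z.im ≠ 0 := by
    intro h
    have hz' : z = ((z.re : ℝ) : ℂ) := by
      apply Complex.ext <;> simp [h]
    rw [hz'] at hz
    exact hker n z.re (Or.inr hre) hz
  have hz2 : (z ^ 2).im ≠ 0 := by
    rw [pow_two, Complex.mul_im]
    have : z.re * z.im + z.im * z.re = 2 * (z.re * z.im) := by ring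
    rw [this]
    exact mul_ne_zero two_ne_zero (mul_ne_zero hre him)
  have hz0 : z ≠ 0 := by
    rintro rfl
    exact hre rfl
  rcases Nat.even_or_odd' n with ⟨m, rfl | rfl⟩
  · refine ⟨m, m, 1 / 2, by norm_num, le_rfl, le_rfl, by omega, by omega, ?_, hz2⟩
    rw [(hxd m z).1] at hz
    exact (mul_eq_zero.1 hz).resolve_left (pow_ne_zero _ (by norm_num))
  · refine ⟨m, m + 1, 3 / 2, by norm_num, by omega, by omega, le_rfl, by omega, ?_, hz2⟩
    rw [(hxd m z).2] at hz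
    exact (mul_eq_zero.1 hz).resolve_left
      (mul_ne_zero (mul_ne_zero two_ne_zero (pow_ne_zero _ (by norm_num))) hz0)

theorem norm_sq' (z : ℂ) : ‖z ^ 2‖ = z.re ^ 2 + z.im ^ 2 := by
  rw [norm_pow, ← Complex.normSq_eq_norm_sq, Complex.normSq_apply]; ring

/-- Low zeros are on the axis, uniformly in the heat parameter. -/
theorem lowZ : ∃ M : ℕ, ∀ τ : ℝ, 0 ≤ τ → ∀ n : ℕ, M ≤ n → ∀ z : ℂ,
    iteratedDeriv n (XT τ) z = 0 → |z.im| ≤ Real.exp (n / 25) → z.re = 0 := by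
  obtain ⟨N1, hN1⟩ := chainU
  obtain ⟨M0, hM0⟩ := XiFin.asym
  refine ⟨2 * (N1 + M0) + 1, fun τ hτ n hn z hz him => ?_⟩
  by_contra hre
  obtain ⟨m, k, b, hb, hmk, hmn, hnm, -, h0, hz2⟩ := zform hτ n z hz hre
  obtain ⟨r1, r2⟩ := hM0 m (by omega)
  have hgood : Good (iteratedDeriv k (FT τ)) := JP.itGood der gl (FT τ) k (goodA τ hτ)
  have hmk' : (m : ℝ) ≤ k := by exact_mod_cast hmk
  have hm0 : (0 : ℝ) ≤ m := Nat.cast_nonneg m
  have hreal : ∀ w : ℂ, ‖w‖ ≤ Real.exp (m / 12) ^ 2 → iteratedDeriv k (FT τ) w = 0 → w.im = 0 := by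
    intro w hw hw0
    by_contra h
    have h1 := hN1 τ hτ k (by omega) w h hw0
    have h2 : Real.exp (m / 12) ^ 2 ≤ Real.exp (k / 5) := by
      rw [← Real.exp_nat_mul]
      apply Real.exp_le_exp.2
      push_cast
      linarith
    linarith
  have hTg := (TI_high b hb m (iteratedDeriv k (FT τ)) 1 hgood le_rfl)
  have hlow := TI_low b hb m (iteratedDeriv k (FT τ)) (Real.exp (m / 12)) hgood r1 hreal (z ^ 2) ?_ h0
  · exact hz2 hlow
  · have hgT : Good (TI b m (iteratedDeriv k (FT τ))) := by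
      have hgg : ∀ (m : ℕ) (f : ℂ → ℂ), Good f → Good (TI b m f) := by
        intro m
        induction m with
        | zero => exact fun f hf => hf
        | succ m ih => exact fun f hf => ih _ (opGood der f _ hf (by positivity))
      exact hgg m _ hgood
    have hpar : z ^ 2 ∈ Par := JP.parT _ hgT 0 (z ^ 2) (by rw [iteratedDeriv_zero]; exact h0)
    have hs := sq_par hpar
    have hs2 : z.re ^ 2 ≤ 1 / 4 := by
      rw [← sq_abs]
      nlinarith [abs_nonneg z.re]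
    have him2 : z.im ^ 2 ≤ Real.exp ((2 * m + 1) / 25) ^ 2 := by
      rw [← sq_abs z.im]
      refine pow_le_pow_left₀ (abs_nonneg _) (him.trans (Real.exp_le_exp.2 ?_)) 2
      have : (n : ℝ) ≤ 2 * m + 1 := by exact_mod_cast hnm
      linarith
    rw [norm_sq']
    have h3 : 0 ≤ (Real.exp ((m : ℝ) / 12) - 2 * m) ^ 2 := sq_nonneg _
    linarith

/-- All zeros are on the axis. -/
theorem allZ : ∃ C : ℝ, 0 < C ∧ ∀ τ : ℝ, 0 < τ → ∀ n : ℕ, C ≤ n * τ → ∀ z : ℂ,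
    iteratedDeriv n (XT τ) z = 0 → z.re = 0 := by
  obtain ⟨C, hC, h⟩ := finXA
  refine ⟨2 * C, by linarith, fun τ hτ n hn z hz => toZA τ n hτ.le (h τ hτ _ ?_) z hz⟩
  have h9 : (n : ℝ) ≤ 2 * (((n + 1) / 2 : ℕ) : ℝ) := by
    have : n ≤ 2 * ((n + 1) / 2) := by omega
    exact_mod_cast this
  nlinarith

theorem bigZ (τ : ℝ) (hτ : 1 / 8 ≤ τ) (n : ℕ) (z : ℂ) (hz : iteratedDeriv n (XT τ) z = 0) :
    z.re = 0 :=
  toZA τ n (by linarith) (fun w hw => bigA τ hτ _ w hw) z hz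

/-- High zeros are on the axis, for all derivatives. -/
theorem highZ : ∃ C : ℝ, 1 ≤ C ∧ ∀ τ : ℝ, 0 < τ → ∀ n : ℕ, ∀ z : ℂ,
    iteratedDeriv n (XT τ) z = 0 → Real.exp (C / τ) < |z.im| → z.re = 0 := by
  obtain ⟨C0, hC0, hall⟩ := allZ
  obtain ⟨C1, hC1, habv⟩ := aboveX
  refine ⟨C1 + 2 * C0 + 1, by linarith, fun τ hτ n z hz him => ?_⟩
  rcases le_or_gt (1 / 8) τ with h8 | h8
  · exact bigZ τ h8 n z hz
  rcases le_or_gt C0 (n * τ) with hn | hn
  · exact hall τ hτ n hn z hz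
  by_contra hre
  obtain ⟨m, k, b, hb, hmk, hmn, hnm, hkn, h0, hz2⟩ := zform hτ.le n z hz hre
  have hgood : Good (iteratedDeriv k (FT τ)) := JP.itGood der gl (FT τ) k (goodA τ hτ.le)
  have hk0 : (0 : ℝ) ≤ k := Nat.cast_nonneg k
  have hE := Real.exp_pos (C1 / τ)
  obtain ⟨-, h2⟩ := TI_high b hb m (iteratedDeriv k (FT τ)) (Real.exp (C1 / τ) + 1 + k) hgood
    (by linarith) (fun w hw hw0 => habv τ hτ h8.le k w hw hw0)
  have h3 := h2 (z ^ 2) hz2 h0
  rw [norm_sq'] at h3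
  have hm0 : (0 : ℝ) ≤ m := Nat.cast_nonneg m
  have h4 : |z.im| ≤ Real.exp (C1 / τ) + 1 + k + m := by
    refine abs_le_of_sq_le_sq ?_ (by linarith)
    nlinarith [sq_nonneg z.re]
  have hkm : (k : ℝ) + m ≤ 2 * n := by
    have : k + m ≤ 2 * n := by omega
    exact_mod_cast this
  have hnτ : (n : ℝ) ≤ C0 / τ := by
    rw [le_div_iff₀ hτ]; exact hn.le
  have h5 : Real.exp ((C1 + 2 * C0 + 1) / τ) = Real.exp (C1 / τ) * Real.exp ((2 * C0 + 1) / τ) := by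
    rw [← Real.exp_add]; congr 1; ring
  have h7 : (1 : ℝ) ≤ Real.exp (C1 / τ) := Real.one_le_exp (by positivity)
  have h8' : 1 ≤ 1 / τ := by rw [le_div_iff₀ hτ]; linarith
  have h9 : (2 * C0 + 1) / τ = 2 * (C0 / τ) + 1 / τ := by ring
  have h10 : 0 ≤ C0 / τ := by positivity
  have h6 : 2 * (C0 / τ) + 1 / τ + 1 ≤ Real.exp ((2 * C0 + 1) / τ) := by
    have := Real.add_one_le_exp ((2 * C0 + 1) / τ)
    linarith
  rw [h5] at him
  have h11 := mul_le_mul_of_nonneg_left h6 hE.le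
  have h12 := mul_nonneg (sub_nonneg.2 h7) (by linarith : 0 ≤ 2 * (C0 / τ) + 1 / τ)
  nlinarith

end Pool.Agent.H986R2.SZ
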